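import Mathlib

/-!
# MP_e21010_lc: sequential picking, valuations of bounded variation along a common order of the items

Let the items be numbered `0, …, m - 1` and let `TV i` be the total variation of the values `v i 0, …, v i (m - 1), 0` of agent
`i`. The partition of the items into the `n` residue classes modulo `n`, used throughout, guarantees every agent `i` at least
`PROP i - TV i`, for every arrival order and all ways of breaking ties. In particular the deficit is at most `1` if every
agent ranks the items in this order, and at most `2` if all valuations are single-peaked along this order.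
-/

set_option autoImplicit false

open Finset

namespace Pool.Agent.Results.MP_e21010_lc.BoundedVariation

/-- the value of a set of items -/
noncomputable def val {m n : ℕ} (v : Fin n → Fin m → ℝ) (i : Fin n) (S : Finset (Fin m)) : ℝ := ∑ g ∈ S, v i g

/-- The agents in the list arrive in this order, `R` is the set of the remaining items. `Wins v goal l R`: some partitioning
strategy ensures that every agent `i` of the list leaves with a part of value at least `goal i`, whichever part of maximal
value the agents take. -/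
def Wins {m n : ℕ} (v : Fin n → Fin m → ℝ) (goal : Fin n → ℝ) : List (Fin n) → Finset (Fin m) → Prop
  | [], _ => True
  | k :: rest, R => ∃ P : Fin (rest.length + 1) → Finset (Fin m),
      (∀ j l, j ≠ l → Disjoint (P j) (P l)) ∧ univ.biUnion P = R ∧
      ∀ j, (∀ l, val v k (P l) ≤ val v k (P j)) → goal k ≤ val v k (P j) ∧ Wins v goal rest (R \ P j)

/-- the value of item `t`, and `0` for `t ≥ m` -/
noncomputable def ext {m n : ℕ} (v : Fin n → Fin m → ℝ) (i : Fin n) (t : ℕ) : ℝ := if h : t < m then v i ⟨t, h⟩ else 0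

/-- the total variation of the sequence `v i 0, …, v i (m - 1), 0` -/
noncomputable def TV {m n : ℕ} (v : Fin n → Fin m → ℝ) (i : Fin n) : ℝ := ∑ t ∈ range m, |ext v i (t + 1) - ext v i t|

lemma wins_of_fixed {m n : ℕ} (v : Fin n → Fin m → ℝ) (goal : Fin n → ℝ) (l : List (Fin n)) :
    ∀ P : Fin l.length → Finset (Fin m), (∀ j k, j ≠ k → Disjoint (P j) (P k)) →
      (∀ i j, goal i ≤ val v i (P j)) → Wins v goal l (univ.biUnion P) := by
  classical
  induction l with
  | nil => intro P _ _; trivial
  | cons k rest ih =>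
    intro P hd hg
    refine ⟨P, hd, rfl, fun j _ => ⟨hg k j, ?_⟩⟩
    have e : (univ.biUnion P) \ P j = univ.biUnion (fun l : Fin rest.length => P (Fin.succAbove j l)) := by
      ext x
      simp only [mem_sdiff, mem_biUnion, mem_univ, true_and]
      constructor
      · rintro ⟨⟨a, ha⟩, hx⟩
        have haj : a ≠ j := fun h => hx (h ▸ ha)
        obtain ⟨l, hl⟩ := Fin.exists_succAbove_eq haj
        exact ⟨l, hl ▸ ha⟩
      · rintro ⟨l, hl⟩
        refine ⟨⟨_, hl⟩, fun hx => ?_⟩
        exact (disjoint_left.1 (hd _ _ (Fin.succAbove_ne j l)) hl) hx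
    rw [e]
    exact ih _ (fun a b hab => hd _ _ (fun h => hab (Fin.succAbove_right_injective h))) (fun i l => hg i _)

lemma abs_le_var (w : ℕ → ℝ) {a b : ℕ} (hab : a ≤ b) : |w b - w a| ≤ ∑ t ∈ Ico a b, |w (t + 1) - w t| := by
  rw [← Finset.sum_Ico_sub w hab]
  exact abs_sum_le_sum_abs _ _

lemma block (w : ℕ → ℝ) (s n : ℕ) {j l : ℕ} (hj : j < n) (hl : l < n) :
    w (s + j) - w (s + l) ≤ ∑ t ∈ Ico s (s + n), |w (t + 1) - w t| := by
  rcases le_total l j with h | h
  · refine (le_abs_self _).trans ((abs_le_var w (by omega : s + l ≤ s + j)).trans ?_)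
    exact sum_le_sum_of_subset_of_nonneg (Ico_subset_Ico (by omega) (by omega)) (fun _ _ _ => abs_nonneg _)
  · rw [← neg_sub]
    refine (neg_le_abs _).trans ((abs_le_var w (by omega : s + j ≤ s + l)).trans ?_)
    exact sum_le_sum_of_subset_of_nonneg (Ico_subset_Ico (by omega) (by omega)) (fun _ _ _ => abs_nonneg _)

lemma sum_blocks (f : ℕ → ℝ) (n B : ℕ) : ∑ b ∈ range B, ∑ t ∈ Ico (b * n) (b * n + n), f t = ∑ t ∈ range (B * n), f t := by
  induction B with
  | zero => simp
  | succ B ih =>
    rw [sum_range_succ, ih, show (B + 1) * n = B * n + n by ring, ← Finset.sum_range_add_sum_Ico f (Nat.le_add_right _ _)]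

/-- the residue class of `j` modulo `n` -/
def cls (m n : ℕ) (j : Fin n) : Finset (Fin m) := univ.filter (fun g => (g : ℕ) % n = j)

lemma val_cls {m n : ℕ} (v : Fin n → Fin m → ℝ) (i j : Fin n) :
    val v i (cls m n j) = ∑ b ∈ range m, ext v i (b * n + j) := by
  classical
  have hn : 0 < n := j.pos
  have h1 : val v i (cls m n j) = ∑ t ∈ (range m).filter (fun t => t % n = j), ext v i t := by
    unfold val cls
    rw [sum_filter, sum_filter, ← Fin.sum_univ_eq_sum_range (fun t => if t % n = j then ext v i t else 0) m]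
    refine sum_congr rfl fun g _ => ?_
    unfold ext
    rw [dif_pos g.2]
  have h2 : ∑ b ∈ range m, ext v i (b * n + j) =
      ∑ b ∈ (range m).filter (fun b => b * n + (j : ℕ) < m), ext v i (b * n + j) := by
    rw [sum_filter]
    refine sum_congr rfl fun b _ => ?_
    split_ifs with h
    · rfl
    · unfold ext
      rw [dif_neg h]
  rw [h1, h2]
  symm
  refine sum_bij (fun b _ => b * n + j) ?_ ?_ ?_ ?_
  · intro b hb
    rw [mem_filter] at hb
    rw [mem_filter, mem_range]
    refine ⟨hb.2, ?_⟩
    rw [Nat.mul_comm, Nat.mul_add_mod, Nat.mod_eq_of_lt j.2]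
  · intro b _ c _ hbc
    have : b * n = c * n := by omega
    exact Nat.eq_of_mul_eq_mul_right hn this
  · intro t ht
    rw [mem_filter, mem_range] at ht
    have hdm := Nat.div_add_mod t n
    refine ⟨t / n, ?_, ?_⟩
    · rw [mem_filter, mem_range]
      constructor
      · exact lt_of_le_of_lt (Nat.div_le_self _ _) ht.1
      · rw [← ht.2, Nat.mul_comm, hdm]
        exact ht.1
    · rw [← ht.2, Nat.mul_comm, hdm]
  · intro b _
    rfl

lemma diff_le {m n : ℕ} (v : Fin n → Fin m → ℝ) (i j l : Fin n) :
    val v i (cls m n j) - val v i (cls m n l) ≤ TV v i := by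
  rw [val_cls, val_cls, ← sum_sub_distrib]
  have hn : 0 < n := j.pos
  calc ∑ b ∈ range m, (ext v i (b * n + j) - ext v i (b * n + l))
      ≤ ∑ b ∈ range m, ∑ t ∈ Ico (b * n) (b * n + n), |ext v i (t + 1) - ext v i t| :=
        sum_le_sum fun b _ => block (ext v i) (b * n) n j.2 l.2
    _ = ∑ t ∈ range (m * n), |ext v i (t + 1) - ext v i t| := sum_blocks _ n m
    _ = ∑ t ∈ range m, |ext v i (t + 1) - ext v i t| := by
        symm
        refine sum_subset (range_subset_range.2 (Nat.le_mul_of_pos_right m hn)) ?_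
        intro t _ ht
        rw [mem_range, not_lt] at ht
        unfold ext
        rw [dif_neg (by omega), dif_neg (by omega)]
        simp
    _ = TV v i := rfl

lemma goal_le {m n : ℕ} (v : Fin n → Fin m → ℝ) (i l : Fin n) :
    (∑ g, v i g) / n - TV v i ≤ val v i (cls m n l) := by
  classical
  have hn : 0 < n := l.pos
  have hn' : (0 : ℝ) < n := by exact_mod_cast hn
  have h1 : ∑ j : Fin n, val v i (cls m n j) = ∑ g, v i g := by
    unfold val cls
    have h2 : ∀ g : Fin m, (g : ℕ) % n < n := fun g => Nat.mod_lt _ hn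
    rw [← sum_fiberwise_of_maps_to (s := (univ : Finset (Fin m))) (t := (univ : Finset (Fin n)))
      (g := fun g => (⟨(g : ℕ) % n, h2 g⟩ : Fin n)) (fun _ _ => mem_univ _) (fun g => v i g)]
    refine sum_congr rfl fun j _ => sum_congr ?_ fun _ _ => rfl
    ext g
    simp only [mem_filter, mem_univ, true_and, Fin.ext_iff]
  have h3 : ∑ j : Fin n, val v i (cls m n j) ≤ ∑ _j : Fin n, (val v i (cls m n l) + TV v i) :=
    sum_le_sum fun j _ => by linarith [diff_le v i j l]
  rw [h1, sum_const, card_univ, Fintype.card_fin, nsmul_eq_mul] at h3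
  have h4 : (∑ g, v i g) / n ≤ val v i (cls m n l) + TV v i := by
    rw [div_le_iff₀ hn']
    linarith [mul_comm (n : ℝ) (val v i (cls m n l) + TV v i)]
  linarith

lemma wins_mono {m n : ℕ} (v : Fin n → Fin m → ℝ) {goal goal' : Fin n → ℝ} (h : ∀ i, goal' i ≤ goal i)
    (l : List (Fin n)) : ∀ R, Wins v goal l R → Wins v goal' l R := by
  induction l with
  | nil => intro R _; trivial
  | cons k rest ih =>
    rintro R ⟨P, h1, h2, h3⟩
    exact ⟨P, h1, h2, fun j hj => ⟨(h k).trans (h3 j hj).1, ih _ (h3 j hj).2⟩⟩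

theorem main {m n : ℕ} (hn : 0 < n) (v : Fin n → Fin m → ℝ) (l : List (Fin n)) (hl : l.length = n) :
    Wins v (fun i => (∑ g, v i g) / n - TV v i) l univ := by
  classical
  have h := wins_of_fixed v (fun i => (∑ g, v i g) / n - TV v i) l (fun j => cls m n (Fin.cast hl j)) ?_ ?_
  · convert h using 1
    symm
    rw [eq_univ_iff_forall]
    intro g
    rw [mem_biUnion]
    refine ⟨Fin.cast hl.symm ⟨(g : ℕ) % n, Nat.mod_lt _ hn⟩, mem_univ _, ?_⟩
    simp [cls]
  · intro j k hjk
    rw [disjoint_left]
    intro g hg hg'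
    simp only [cls, mem_filter, mem_univ, true_and] at hg hg'
    apply hjk
    have : (Fin.cast hl j) = (Fin.cast hl k) := Fin.ext (hg.symm.trans hg')
    exact Fin.cast_injective hl this
  · intro i j
    exact goal_le v i _

/-- the values increase up to the item `p` and decrease from there on -/
def SinglePeaked {m : ℕ} (u : Fin m → ℝ) : Prop :=
  ∃ p : ℕ, (∀ a b : Fin m, a ≤ b → (b : ℕ) ≤ p → u a ≤ u b) ∧ ∀ a b : Fin m, p ≤ (a : ℕ) → a ≤ b → u b ≤ u a

lemma tv_le {m n : ℕ} (v : Fin n → Fin m → ℝ) (i : Fin n) {q : ℕ} (hq : q ≤ m)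
    (h1 : ∀ t, t < q → ext v i t ≤ ext v i (t + 1)) (h2 : ∀ t, q ≤ t → t < m → ext v i (t + 1) ≤ ext v i t) :
    TV v i ≤ 2 * ext v i q - ext v i 0 := by
  have hm : ext v i m = 0 := by
    unfold ext
    rw [dif_neg (lt_irrefl m)]
  unfold TV
  rw [← Finset.sum_range_add_sum_Ico _ hq]
  have e1 : ∑ t ∈ range q, |ext v i (t + 1) - ext v i t| = ext v i q - ext v i 0 := by
    rw [← Finset.sum_range_sub]
    refine sum_congr rfl fun t ht => abs_of_nonneg ?_
    linarith [h1 t (mem_range.1 ht)]
  have e2 : ∑ t ∈ Ico q m, |ext v i (t + 1) - ext v i t| = -(ext v i m - ext v i q) := by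
    rw [← Finset.sum_Ico_sub _ hq, ← sum_neg_distrib]
    refine sum_congr rfl fun t ht => abs_of_nonpos ?_
    rw [mem_Ico] at ht
    linarith [h2 t ht.1 ht.2]
  rw [e1, e2, hm]
  linarith

lemma tv_peak {m n : ℕ} (v : Fin n → Fin m → ℝ) (i : Fin n) (h0 : ∀ g, 0 ≤ v i g) (h1 : ∀ g, v i g ≤ 1)
    (h : SinglePeaked (v i)) : TV v i ≤ 2 := by
  obtain ⟨p, hp1, hp2⟩ := h
  have hext0 : ∀ t, 0 ≤ ext v i t := by
    intro t
    unfold ext
    split_ifs with ht
    · exact h0 _
    · exact le_rfl
  have hext1 : ∀ t, ext v i t ≤ 1 := by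
    intro t
    unfold ext
    split_ifs with ht
    · exact h1 _
    · exact zero_le_one
  have := tv_le v i (q := min p (m - 1)) (by omega) ?_ ?_
  · linarith [hext0 0, hext1 (min p (m - 1))]
  · intro t ht
    unfold ext
    rw [dif_pos (by omega : t < m), dif_pos (by omega : t + 1 < m)]
    exact hp1 _ _ (Fin.mk_le_mk.2 (Nat.le_succ t)) (by show t + 1 ≤ p; omega)
  · intro t ht htm
    by_cases h3 : t + 1 < m
    · unfold ext
      rw [dif_pos htm, dif_pos h3]
      exact hp2 _ _ (by show p ≤ t; omega) (Fin.mk_le_mk.2 (Nat.le_succ t))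
    · have : ext v i (t + 1) = 0 := by
        unfold ext
        rw [dif_neg h3]
      rw [this]
      exact hext0 t

lemma tv_anti {m n : ℕ} (v : Fin n → Fin m → ℝ) (i : Fin n) (h0 : ∀ g, 0 ≤ v i g) (h1 : ∀ g, v i g ≤ 1)
    (h : Antitone (v i)) : TV v i ≤ 1 := by
  have hext1 : ext v i 0 ≤ 1 := by
    unfold ext
    split_ifs with ht
    · exact h1 _
    · exact zero_le_one
  have := tv_le v i (q := 0) (Nat.zero_le _) (fun t ht => absurd ht (Nat.not_lt_zero t)) ?_
  · linarith
  · intro t _ htm
    by_cases h3 : t + 1 < m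
    · unfold ext
      rw [dif_pos htm, dif_pos h3]
      exact h (Fin.mk_le_mk.2 (Nat.le_succ t))
    · unfold ext
      rw [dif_pos htm, dif_neg h3]
      exact h0 _

/-- **Main theorem.** The items are numbered along a common axis, `l` is an arbitrary arrival order of the `n` agents. (1) Some
strategy guarantees every agent `i` at least `PROP i - TV i`. (2) `PROP i - 1` if the values of every agent decrease along the
axis. (3) `PROP i - 2` if all valuations are single-peaked along the axis. -/
theorem result (m n : ℕ) (hn : 0 < n) (v : Fin n → Fin m → ℝ) (h0 : ∀ i g, 0 ≤ v i g) (h1 : ∀ i g, v i g ≤ 1)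
    (l : List (Fin n)) (hl : l.length = n) :
    Wins v (fun i => (∑ g, v i g) / n - TV v i) l univ ∧
    ((∀ i, Antitone (v i)) → Wins v (fun i => (∑ g, v i g) / n - 1) l univ) ∧
    ((∀ i, SinglePeaked (v i)) → Wins v (fun i => (∑ g, v i g) / n - 2) l univ) := by
  refine ⟨main hn v l hl, fun h => ?_, fun h => ?_⟩
  · exact wins_mono v (fun i => by linarith [tv_anti v i (h0 i) (h1 i) (h i)]) l _ (main hn v l hl)
  · exact wins_mono v (fun i => by linarith [tv_peak v i (h0 i) (h1 i) (h i)]) l _ (main hn v l hl)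

end Pool.Agent.Results.MP_e21010_lc.BoundedVariation
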